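import Mathlib
import Pool.Agent.V1181.Lap
import Pool.Agent.V1181.ConfLen

/-!
# Finite area conformal metrics on the plane with curvature at least one and diameter near `2 π`

For `F = 1 + x ^ 2`, `m = (|F| ^ 2 + e ^ 2) ^ (1 / 2)` and `T > 0` let
`exp u = 2 T / (m ^ (1/2) (|x| ^ 2 + T ^ 2 m))`. For `e = 0` this is the pull back of the round
metric under the branched map `x -> T (1 + x ^ 2) ^ (1 / 2) / x`. The curvature is larger than one,
the area is finite, and the distance of `i` and `-i` is at least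
`4 arctan (1 / (T e ^ (1/2))) - 4 arctan (1 / T)`.
-/

set_option autoImplicit false

namespace Pool.Agent.Results.MP_0fb7ac_an.DiameterTwoPi

open Real Set Filter MeasureTheory Topology InnerProductSpace Laplacian Pool.Agent.V1181

/-- `|x| ^ 2`. -/
noncomputable def R (x : ℂ) : ℝ := x.re ^ 2 + x.im ^ 2

/-- `|1 + x ^ 2| ^ 2 + e ^ 2`. -/
noncomputable def M (e : ℝ) (x : ℂ) : ℝ :=
  (1 + x.re ^ 2 - x.im ^ 2) ^ 2 + 4 * x.re ^ 2 * x.im ^ 2 + e ^ 2

/-- `|x| ^ 2 + T ^ 2 m`. -/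
noncomputable def S (e T : ℝ) (x : ℂ) : ℝ := R x + T ^ 2 * √(M e x)

/-- The conformal factor. -/
noncomputable def U (e T : ℝ) (x : ℂ) : ℝ :=
  log (2 * T) - 1 / 4 * log (M e x) - log (S e T x)

theorem R_nonneg (x : ℂ) : 0 ≤ R x := by unfold R; positivity

theorem M_pos {e : ℝ} (he : 0 < e) (x : ℂ) : 0 < M e x := by unfold M; positivity

theorem S_pos {e T : ℝ} (he : 0 < e) (hT : 0 < T) (x : ℂ) : 0 < S e T x := by
  unfold S
  have := Real.sqrt_pos.2 (M_pos he x)
  have := R_nonneg x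
  positivity

theorem R_contDiff : ContDiff ℝ (⊤ : ℕ∞) R := by
  unfold R
  have h0 : ContDiff ℝ (⊤ : ℕ∞) (fun x : ℂ => x.re) := Complex.reCLM.contDiff
  have h1 : ContDiff ℝ (⊤ : ℕ∞) (fun x : ℂ => x.im) := Complex.imCLM.contDiff
  exact (h0.pow 2).add (h1.pow 2)

theorem M_contDiff (e : ℝ) : ContDiff ℝ (⊤ : ℕ∞) (M e) := by
  unfold M
  have h0 : ContDiff ℝ (⊤ : ℕ∞) (fun x : ℂ => x.re) := Complex.reCLM.contDiff
  have h1 : ContDiff ℝ (⊤ : ℕ∞) (fun x : ℂ => x.im) := Complex.imCLM.contDiff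
  exact ((((contDiff_const.add (h0.pow 2)).sub (h1.pow 2)).pow 2).add
    ((contDiff_const.mul (h0.pow 2)).mul (h1.pow 2))).add contDiff_const

theorem m_contDiff {e : ℝ} (he : 0 < e) : ContDiff ℝ (⊤ : ℕ∞) (fun x => √(M e x)) :=
  (M_contDiff e).sqrt fun x => (M_pos he x).ne'

theorem S_contDiff {e : ℝ} (he : 0 < e) (T : ℝ) : ContDiff ℝ (⊤ : ℕ∞) (S e T) :=
  R_contDiff.add (contDiff_const.mul (m_contDiff he))

theorem U_contDiff {e T : ℝ} (he : 0 < e) (hT : 0 < T) : ContDiff ℝ (⊤ : ℕ∞) (U e T) :=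
  (contDiff_const.sub (contDiff_const.mul ((M_contDiff e).log fun x => (M_pos he x).ne'))).sub
    ((S_contDiff he T).log fun x => (S_pos he hT x).ne')

theorem exp_two_U {e T : ℝ} (he : 0 < e) (hT : 0 < T) (x : ℂ) :
    exp (2 * U e T x) = 4 * T ^ 2 / (√(M e x) * S e T x ^ 2) := by
  have hM := M_pos he x
  have hS := S_pos he hT x
  have hm := Real.sqrt_pos.2 hM
  have h1 : log (M e x) = 2 * log √(M e x) := by
    rw [Real.log_sqrt hM.le]
    ring
  have h2 : 2 * U e T x = log (4 * T ^ 2 / (√(M e x) * S e T x ^ 2)) := by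
    rw [Real.log_div (by positivity) (by positivity), Real.log_mul hm.ne' (by positivity),
      Real.log_pow, Real.log_mul (by norm_num) (by positivity), Real.log_pow]
    unfold U
    rw [h1, Real.log_mul (by norm_num) hT.ne']
    have h3 : log 4 = 2 * log 2 := by
      rw [show (4 : ℝ) = 2 ^ 2 by norm_num, Real.log_pow]
      norm_num
    rw [h3]
    push_cast
    ring
  rw [h2, exp_log (by positivity)]

theorem hline (w v : ℂ) : HasDerivAt (fun t : ℝ => w + t • v) v 0 := by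
  have h1 : HasDerivAt (fun t : ℝ => t • v) ((1 : ℝ) • v) 0 :=
    (hasDerivAt_id (0 : ℝ)).smul_const v
  simpa using h1.const_add w

theorem hre (w v : ℂ) : HasDerivAt (fun t : ℝ => (w + t • v).re) v.re 0 :=
  Complex.reCLM.hasFDerivAt.comp_hasDerivAt (0 : ℝ) (hline w v)

theorem him (w v : ℂ) : HasDerivAt (fun t : ℝ => (w + t • v).im) v.im 0 :=
  Complex.imCLM.hasFDerivAt.comp_hasDerivAt (0 : ℝ) (hline w v)

/-- Directional derivative of `R`. -/
noncomputable def R1 (v x : ℂ) : ℝ := 2 * x.re * v.re + 2 * x.im * v.im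

/-- Directional derivative of `M`. -/
noncomputable def M1 (v x : ℂ) : ℝ :=
  4 * x.re * (1 + R x) * v.re + 4 * x.im * (R x - 1) * v.im

/-- Second directional derivative of `M`. -/
noncomputable def M2 (v x : ℂ) : ℝ :=
  4 * (v.re * (1 + R x) + x.re * R1 v x) * v.re
    + 4 * (v.im * (R x - 1) + x.im * R1 v x) * v.im

theorem R_d (v w : ℂ) : HasDerivAt (fun t : ℝ => R (w + t • v)) (R1 v w) 0 := by
  have h := ((hre w v).pow 2).add ((him w v).pow 2)
  refine h.congr_deriv ?_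
  simp [R1]

theorem M_d (e : ℝ) (v w : ℂ) : HasDerivAt (fun t : ℝ => M e (w + t • v)) (M1 v w) 0 := by
  have h := (((((hre w v).pow 2).const_add 1).sub ((him w v).pow 2)).pow 2).add
    ((((hre w v).pow 2).const_mul 4).mul ((him w v).pow 2)) |>.add_const (e ^ 2)
  refine h.congr_deriv ?_
  simp [M1, R]
  ring

theorem R1_d (v w : ℂ) : HasDerivAt (fun t : ℝ => R1 v (w + t • v))
    (2 * (v.re ^ 2 + v.im ^ 2)) 0 := by
  have h := (((hre w v).const_mul 2).mul_const v.re).add (((him w v).const_mul 2).mul_const v.im)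
  refine h.congr_deriv ?_
  ring

theorem M1_d (v w : ℂ) : HasDerivAt (fun t : ℝ => M1 v (w + t • v)) (M2 v w) 0 := by
  have h := ((((hre w v).const_mul 4).mul ((R_d v w).const_add 1)).mul_const v.re).add
    ((((him w v).const_mul 4).mul ((R_d v w).sub_const 1)).mul_const v.im)
  refine h.congr_deriv ?_
  simp [M2]
  ring

theorem m_d {e : ℝ} (he : 0 < e) (v w : ℂ) :
    HasDerivAt (fun t : ℝ => √(M e (w + t • v))) (M1 v w / (2 * √(M e w))) 0 := by
  have h := (M_d e v w).sqrt (by simpa using (M_pos he w).ne')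
  refine h.congr_deriv ?_
  simp

/-- Directional derivative of `S`. -/
noncomputable def S1 (e T : ℝ) (v x : ℂ) : ℝ := R1 v x + T ^ 2 * (M1 v x / (2 * √(M e x)))

theorem S_d {e : ℝ} (he : 0 < e) (T : ℝ) (v w : ℂ) :
    HasDerivAt (fun t : ℝ => S e T (w + t • v)) (S1 e T v w) 0 :=
  (R_d v w).add ((m_d he v w).const_mul (T ^ 2))

/-- Directional derivative of `U`. -/
noncomputable def U1 (e T : ℝ) (v x : ℂ) : ℝ :=
  - (1 / 4 * (M1 v x / M e x)) - S1 e T v x / S e T x

theorem U_d {e T : ℝ} (he : 0 < e) (hT : 0 < T) (v w : ℂ) :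
    HasDerivAt (fun t : ℝ => U e T (w + t • v)) (U1 e T v w) 0 := by
  have h1 := (M_d e v w).log (by simpa using (M_pos he w).ne')
  have h2 := (S_d he T v w).log (by simpa using (S_pos he hT w).ne')
  have h := ((h1.const_mul (1 / 4)).const_sub (log (2 * T))).sub h2
  refine h.congr_deriv ?_
  simp [U1]

/-- Second directional derivative of `S`. -/
noncomputable def S2 (e T : ℝ) (v x : ℂ) : ℝ :=
  2 * (v.re ^ 2 + v.im ^ 2) + T ^ 2 * ((M2 v x * (2 * √(M e x))
    - M1 v x * (2 * (M1 v x / (2 * √(M e x))))) / (2 * √(M e x)) ^ 2)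

theorem S1_d {e : ℝ} (he : 0 < e) (T : ℝ) (v w : ℂ) :
    HasDerivAt (fun t : ℝ => S1 e T v (w + t • v)) (S2 e T v w) 0 := by
  have hm : √(M e w) ≠ 0 := (Real.sqrt_pos.2 (M_pos he w)).ne'
  have h := (R1_d v w).add (((M1_d v w).div ((m_d he v w).const_mul 2)
    (by simpa using hm)).const_mul (T ^ 2))
  refine h.congr_deriv ?_
  simp [S2]

theorem U1_d {e T : ℝ} (he : 0 < e) (hT : 0 < T) (v w : ℂ) :
    HasDerivAt (fun t : ℝ => U1 e T v (w + t • v))
      (- (1 / 4 * ((M2 v w * M e w - M1 v w * M1 v w) / M e w ^ 2))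
        - (S2 e T v w * S e T w - S1 e T v w * S1 e T v w) / S e T w ^ 2) 0 := by
  have h1 := (M1_d v w).div (M_d e v w) (by simpa using (M_pos he w).ne')
  have h2 := (S1_d he T v w).div (S_d he T v w) (by simpa using (S_pos he hT w).ne')
  have h := (h1.const_mul (1 / 4)).neg.sub h2
  refine h.congr_deriv ?_
  simp

theorem U_lap {e T : ℝ} (he : 0 < e) (hT : 0 < T) (x : ℂ) :
    Δ (U e T) x + exp (2 * U e T x) = - (4 * e ^ 2 * R x / √(M e x) ^ 4
      + 4 * T ^ 2 * e ^ 2 * (√(M e x) ^ 2 + R x ^ 2 + 2 * T ^ 2 * R x * √(M e x))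
        / (√(M e x) ^ 3 * S e T x ^ 2)) := by
  have hcd := U_contDiff he hT
  rw [lap_eq Complex.orthonormalBasisOneI
    (by exact_mod_cast (contDiff_infty.1 hcd 2).contDiffAt)
    (fun i w => U1 e T (Complex.orthonormalBasisOneI i) w) _
    (fun i => Filter.Eventually.of_forall fun w => U_d he hT _ w)
    (fun i => U1_d he hT _ x), exp_two_U he hT x]
  rw [Fin.sum_univ_two]
  simp only [Complex.coe_orthonormalBasisOneI, Matrix.cons_val_zero, Matrix.cons_val_one]
  have hm := Real.sqrt_pos.2 (M_pos he x)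
  have hMm : M e x = √(M e x) ^ 2 := (Real.sq_sqrt (M_pos he x).le).symm
  have hS := S_pos he hT x
  have hSe : S e T x = R x + T ^ 2 * √(M e x) := rfl
  have he2 : e ^ 2 = √(M e x) ^ 2 - ((1 + x.re ^ 2 - x.im ^ 2) ^ 2 + 4 * x.re ^ 2 * x.im ^ 2) := by
    rw [← hMm]
    unfold M
    ring
  have hR : R x = x.re ^ 2 + x.im ^ 2 := rfl
  simp only [S1, S2, M1, M2, R1, Complex.one_re, Complex.one_im, Complex.I_re, Complex.I_im]
  generalize √(M e x) = m at *
  rw [he2, hMm]
  generalize S e T x = s at *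
  have hs0 : s ≠ 0 := hS.ne'
  have hm0 : m ≠ 0 := hm.ne'
  generalize R x = r at *
  field_simp
  subst hSe
  subst hR
  ring

theorem U_super {e T : ℝ} (he : 0 < e) (hT : 0 < T) (x : ℂ) :
    Δ (U e T) x + exp (2 * U e T x) ≤ 0 := by
  rw [U_lap he hT]
  have hm := Real.sqrt_pos.2 (M_pos he x)
  have hS := S_pos he hT x
  have hR := R_nonneg x
  have : 0 ≤ 4 * e ^ 2 * R x / √(M e x) ^ 4
      + 4 * T ^ 2 * e ^ 2 * (√(M e x) ^ 2 + R x ^ 2 + 2 * T ^ 2 * R x * √(M e x))
        / (√(M e x) ^ 3 * S e T x ^ 2) := by positivity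
  linarith

theorem m_lower {e : ℝ} (he : 0 < e) (x : ℂ) : 1 + R x ≤ √(M e x) * (1 + 2 / e) := by
  have h1 : e ≤ √(M e x) := by
    refine Real.le_sqrt_of_sq_le ?_
    unfold M
    nlinarith [sq_nonneg (1 + x.re ^ 2 - x.im ^ 2), sq_nonneg (x.re * x.im)]
  have h2 : R x - 1 ≤ √(M e x) := by
    refine Real.le_sqrt_of_sq_le ?_
    unfold M R
    nlinarith [sq_nonneg x.re, sq_nonneg x.im, sq_nonneg e]
  have h3 : 2 ≤ √(M e x) * (2 / e) := by
    rw [mul_div_assoc', le_div_iff₀ he]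
    linarith
  linarith

theorem area_int {e T : ℝ} (he : 0 < e) (hT : 0 < T) :
    Integrable (fun x => exp (2 * U e T x)) := by
  have h := integrable_rpow_neg_one_add_norm_sq (E := ℂ) (μ := volume) (r := 6) (by
    rw [Complex.finrank_real_complex]
    norm_num)
  refine Integrable.mono' (h.const_mul (4 / T ^ 2 * (1 + 2 / e) ^ 3)) ?_ ?_
  · exact (Real.continuous_exp.comp (continuous_const.mul
      (U_contDiff he hT).continuous)).aestronglyMeasurable
  · refine Filter.Eventually.of_forall fun x => ?_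
    rw [Real.norm_of_nonneg (exp_pos _).le, exp_two_U he hT]
    have hm := Real.sqrt_pos.2 (M_pos he x)
    have hS := S_pos he hT x
    have hR := R_nonneg x
    have hl := m_lower he x
    have hRn : ‖x‖ ^ 2 = R x := by
      rw [Complex.sq_norm, Complex.normSq_apply]
      unfold R
      ring
    rw [hRn]
    have e1 : (1 + R x) ^ (-(6 : ℝ) / 2) = ((1 + R x) ^ 3)⁻¹ := by
      have : (-(6 : ℝ) / 2) = -((3 : ℕ) : ℝ) := by norm_num
      rw [this, Real.rpow_neg (by linarith), Real.rpow_natCast]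
    rw [e1]
    have hSm : T ^ 2 * √(M e x) ≤ S e T x := by
      unfold S
      linarith
    set m := √(M e x) with hmdef
    have hb : 0 < 1 + R x := by linarith
    have h3 : (1 + R x) ^ 3 ≤ (m * (1 + 2 / e)) ^ 3 := by gcongr
    calc 4 * T ^ 2 / (m * S e T x ^ 2) ≤ 4 * T ^ 2 / (m * (T ^ 2 * m) ^ 2) := by gcongr
      _ = 4 / T ^ 2 * (m ^ 3)⁻¹ := by
        field_simp
      _ = 4 / T ^ 2 * ((1 + 2 / e) ^ 3 * ((m * (1 + 2 / e)) ^ 3)⁻¹) := by
        congr 1
        have : (1 + 2 / e) ≠ 0 := by positivity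
        rw [mul_pow]
        field_simp
      _ ≤ 4 / T ^ 2 * ((1 + 2 / e) ^ 3 * ((1 + R x) ^ 3)⁻¹) := by gcongr
      _ = 4 / T ^ 2 * (1 + 2 / e) ^ 3 * ((1 + R x) ^ 3)⁻¹ := by ring

/-- `R / (T ^ 2 m)`. -/
noncomputable def W (e T : ℝ) (x : ℂ) : ℝ := R x / (T ^ 2 * √(M e x))

/-- Spherical distance function from the point at infinity. -/
noncomputable def psi (e T : ℝ) (x : ℂ) : ℝ := 2 * arctan (√(W e T x))

/-- Directional derivative of `W`. -/
noncomputable def W1 (e T : ℝ) (v x : ℂ) : ℝ :=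
  (R1 v x * (T ^ 2 * √(M e x)) - R x * (T ^ 2 * (M1 v x / (2 * √(M e x)))))
    / (T ^ 2 * √(M e x)) ^ 2

theorem W_d {e T : ℝ} (he : 0 < e) (hT : 0 < T) (v w : ℂ) :
    HasDerivAt (fun t : ℝ => W e T (w + t • v)) (W1 e T v w) 0 := by
  have hm : √(M e w) ≠ 0 := (Real.sqrt_pos.2 (M_pos he w)).ne'
  have h := (R_d v w).div ((m_d he v w).const_mul (T ^ 2)) (by simpa using ⟨hT.ne', hm⟩)
  refine h.congr_deriv ?_
  simp [W1]

theorem psi_d {e T : ℝ} (he : 0 < e) (hT : 0 < T) (v : ℂ) {w : ℂ} (hw : 0 < R w) :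
    HasDerivAt (fun t : ℝ => psi e T (w + t • v))
      (W1 e T v w / ((1 + W e T w) * √(W e T w))) 0 := by
  have hm : 0 < √(M e w) := Real.sqrt_pos.2 (M_pos he w)
  have hW : 0 < W e T w := by unfold W; positivity
  have h1 := (W_d he hT v w).sqrt (by simpa using hW.ne')
  have h2 := (h1.arctan).const_mul 2
  refine h2.congr_deriv ?_
  simp only [zero_smul, add_zero]
  rw [Real.sq_sqrt hW.le]
  have : √(W e T w) ≠ 0 := (Real.sqrt_pos.2 hW).ne'
  have : 1 + W e T w ≠ 0 := by positivity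
  field_simp

theorem psi_diff {e T : ℝ} (he : 0 < e) (hT : 0 < T) {w : ℂ} (hw : 0 < R w) :
    DifferentiableAt ℝ (psi e T) w := by
  have hm : 0 < √(M e w) := Real.sqrt_pos.2 (M_pos he w)
  have hW : 0 < W e T w := by unfold W; positivity
  have h1 : DifferentiableAt ℝ (W e T) w := by
    have hR : DifferentiableAt ℝ R w :=
      (contDiff_infty.1 R_contDiff 1).contDiffAt.differentiableAt (by norm_num)
    have hM : DifferentiableAt ℝ (fun x => √(M e x)) w :=
      (contDiff_infty.1 (m_contDiff he) 1).contDiffAt.differentiableAt (by norm_num)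
    have h0 : T ^ 2 * √(M e w) ≠ 0 := by positivity
    have hg : DifferentiableAt ℝ (fun x => T ^ 2 * √(M e x)) w := hM.const_mul (T ^ 2)
    have hi : DifferentiableAt ℝ (fun x => (T ^ 2 * √(M e x))⁻¹) w := hg.fun_inv h0
    have e1 : W e T = fun x => R x * (T ^ 2 * √(M e x))⁻¹ := by
      funext x
      exact div_eq_mul_inv _ _
    rw [e1]
    exact hR.mul hi
  exact ((h1.sqrt hW.ne').arctan).const_mul 2

theorem norm_of_partials {g : ℂ → ℝ} {z : ℂ} {p q K : ℝ} (hg : DifferentiableAt ℝ g z)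
    (hp : HasDerivAt (fun t : ℝ => g (z + t • (1 : ℂ))) p 0)
    (hq : HasDerivAt (fun t : ℝ => g (z + t • Complex.I)) q 0) (hK : 0 ≤ K)
    (h : p ^ 2 + q ^ 2 ≤ K ^ 2) : ‖fderiv ℝ g z‖ ≤ K := by
  have hd : ∀ v : ℂ, HasDerivAt (fun t : ℝ => g (z + t • v)) (fderiv ℝ g z v) 0 := by
    intro v
    have h1 : HasFDerivAt g (fderiv ℝ g z) (z + (0 : ℝ) • v) := by simpa using hg.hasFDerivAt
    exact h1.comp_hasDerivAt (0 : ℝ) (hline z v)
  have e1 : fderiv ℝ g z 1 = p := (hd 1).unique hp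
  have e2 : fderiv ℝ g z Complex.I = q := (hd Complex.I).unique hq
  refine ContinuousLinearMap.opNorm_le_bound _ hK fun v => ?_
  have hv : v = v.re • (1 : ℂ) + v.im • Complex.I := by
    apply Complex.ext <;> simp
  have e3 : fderiv ℝ g z v = v.re * p + v.im * q := by
    conv_lhs => rw [hv]
    rw [map_add, map_smul, map_smul, e1, e2, smul_eq_mul, smul_eq_mul]
  rw [e3, Real.norm_eq_abs]
  refine abs_le_of_sq_le_sq ?_ (by positivity)
  have hn : ‖v‖ ^ 2 = v.re ^ 2 + v.im ^ 2 := by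
    rw [Complex.sq_norm, Complex.normSq_apply]
    ring
  rw [mul_pow, hn]
  have h4 : 0 ≤ v.re ^ 2 + v.im ^ 2 := by positivity
  have h5 := mul_le_mul_of_nonneg_right h h4
  nlinarith [sq_nonneg (v.re * q - v.im * p)]

theorem psi_grad {e T : ℝ} (he : 0 < e) (hT : 0 < T) {z : ℂ} (hz : √(M e z) ≤ R z) :
    ‖fderiv ℝ (psi e T) z‖ ≤ exp (U e T z) := by
  have hm : 0 < √(M e z) := Real.sqrt_pos.2 (M_pos he z)
  have hR : 0 < R z := lt_of_lt_of_le hm hz
  refine norm_of_partials (psi_diff he hT hR) (psi_d he hT 1 hR) (psi_d he hT Complex.I hR)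
    (exp_pos _).le ?_
  have hS := S_pos he hT z
  have hW : 0 < W e T z := by unfold W; positivity
  rw [← Real.exp_nat_mul]
  push_cast
  rw [exp_two_U he hT, div_pow, div_pow, mul_pow, Real.sq_sqrt hW.le]
  have hW1 : 1 + W e T z = S e T z / (T ^ 2 * √(M e z)) := by
    unfold W S
    field_simp
    ring
  rw [hW1]
  have hMm : M e z = √(M e z) ^ 2 := (Real.sq_sqrt (M_pos he z).le).symm
  have hM : M e z = (1 + z.re ^ 2 - z.im ^ 2) ^ 2 + 4 * z.re ^ 2 * z.im ^ 2 + e ^ 2 := rfl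
  rw [hMm] at hM
  have hRe : R z = z.re ^ 2 + z.im ^ 2 := rfl
  simp only [W1, R1, M1, W, Complex.one_re, Complex.one_im, Complex.I_re, Complex.I_im]
  generalize √(M e z) = m at *
  generalize S e T z = s at *
  generalize R z = r at *
  have hX : m ^ 2 - r ^ 2 ≤ 0 := by nlinarith
  have key : (2 * z.re * m - r * (4 * z.re * (1 + r) / (2 * m))) ^ 2
      + (2 * z.im * m - r * (4 * z.im * (r - 1) / (2 * m))) ^ 2 ≤ 4 * r := by
    have e1 : (2 * z.re * m - r * (4 * z.re * (1 + r) / (2 * m))) ^ 2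
      + (2 * z.im * m - r * (4 * z.im * (r - 1) / (2 * m))) ^ 2
      = 4 * r / m ^ 2 * ((m ^ 2 - r ^ 2) * (1 + e ^ 2) + r ^ 2) := by
      field_simp
      subst hRe
      have hm2 : m ^ 2 = (1 + z.re ^ 2 - z.im ^ 2) ^ 2 + 4 * z.re ^ 2 * z.im ^ 2 + e ^ 2 := hM
      have he2 : e ^ 2 = m ^ 2 - ((1 + z.re ^ 2 - z.im ^ 2) ^ 2 + 4 * z.re ^ 2 * z.im ^ 2) := by
        linarith
      rw [he2]
      ring
    rw [e1, div_mul_eq_mul_div, div_le_iff₀ (by positivity)]
    have h2 : (m ^ 2 - r ^ 2) * (1 + e ^ 2) + r ^ 2 ≤ m ^ 2 := by nlinarith [sq_nonneg e]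
    nlinarith
  have e2 : (((2 * z.re * 1 + 2 * z.im * 0) * (T ^ 2 * m)
      - r * (T ^ 2 * ((4 * z.re * (1 + r) * 1 + 4 * z.im * (r - 1) * 0) / (2 * m))))
        / (T ^ 2 * m) ^ 2) ^ 2
        = T ^ 4 * (2 * z.re * m - r * (4 * z.re * (1 + r) / (2 * m))) ^ 2
          / ((T ^ 2 * m) ^ 2) ^ 2 := by
    rw [div_pow]
    ring
  have e3 : (((2 * z.re * 0 + 2 * z.im * 1) * (T ^ 2 * m)
      - r * (T ^ 2 * ((4 * z.re * (1 + r) * 0 + 4 * z.im * (r - 1) * 1) / (2 * m))))
        / (T ^ 2 * m) ^ 2) ^ 2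
        = T ^ 4 * (2 * z.im * m - r * (4 * z.im * (r - 1) / (2 * m))) ^ 2
          / ((T ^ 2 * m) ^ 2) ^ 2 := by
    rw [div_pow]
    ring
  rw [e2, e3]
  generalize (2 * z.re * m - r * (4 * z.re * (1 + r) / (2 * m))) ^ 2 = A at *
  generalize (2 * z.im * m - r * (4 * z.im * (r - 1) / (2 * m))) ^ 2 = B at *
  have hs0 : s ≠ 0 := hS.ne'
  have hm0 : m ≠ 0 := hm.ne'
  have hr0 : r ≠ 0 := hR.ne'
  have e4 : T ^ 4 * A / ((T ^ 2 * m) ^ 2) ^ 2 / ((s / (T ^ 2 * m)) ^ 2 * (r / (T ^ 2 * m)))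
      + T ^ 4 * B / ((T ^ 2 * m) ^ 2) ^ 2 / ((s / (T ^ 2 * m)) ^ 2 * (r / (T ^ 2 * m)))
      = T ^ 2 / (m * s ^ 2) * ((A + B) / r) := by
    field_simp
  rw [e4]
  have h5 : (A + B) / r ≤ 4 := by
    rw [div_le_iff₀ hR]
    exact key
  calc T ^ 2 / (m * s ^ 2) * ((A + B) / r) ≤ T ^ 2 / (m * s ^ 2) * 4 := by gcongr
    _ = 4 * T ^ 2 / (m * s ^ 2) := by ring

/-- The value of `psi` on the curve `m = R`. -/
noncomputable def B (T : ℝ) : ℝ := 2 * arctan (1 / T)

theorem psi_le_B {e T : ℝ} (he : 0 < e) (hT : 0 < T) {z : ℂ} (hz : R z ≤ √(M e z)) :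
    psi e T z ≤ B T := by
  unfold psi B
  have hm : 0 < √(M e z) := Real.sqrt_pos.2 (M_pos he z)
  have h1 : √(W e T z) ≤ 1 / T := by
    refine Real.sqrt_le_iff.2 ⟨by positivity, ?_⟩
    unfold W
    rw [div_pow, div_le_div_iff₀ (by positivity) (by positivity)]
    nlinarith [sq_nonneg T]
  have := arctan_mono h1
  linarith

/-- The function used for the distance estimate. -/
noncomputable def Theta (e T : ℝ) (x : ℂ) : ℝ :=
  if 0 ≤ x.im then max (psi e T x - B T) 0 else - max (psi e T x - B T) 0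

theorem Theta_slope {e T : ℝ} (he : 0 < e) (hT : 0 < T) (z : ℂ) : ∀ ε > 0, ∀ᶠ w in 𝓝 z,
    |Theta e T w - Theta e T z| ≤ (exp (U e T z) + ε) * ‖w - z‖ := by
  intro ε hε
  by_cases hz : R z < √(M e z)
  · have hev : ∀ᶠ w in 𝓝 z, R w < √(M e w) :=
      (R_contDiff.continuous.continuousAt).eventually_lt
        (m_contDiff he).continuous.continuousAt hz
    have h0 : ∀ w, R w < √(M e w) → Theta e T w = 0 := by
      intro w hw
      have h1 := psi_le_B (T := T) he hT hw.le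
      unfold Theta
      rw [max_eq_right (by linarith)]
      simp
    filter_upwards [hev] with w hw
    rw [h0 w hw, h0 z hz]
    simp only [sub_self, abs_zero]
    positivity
  · rw [not_lt] at hz
    have hm : 0 < √(M e z) := Real.sqrt_pos.2 (M_pos he z)
    have hR : 0 < R z := lt_of_lt_of_le hm hz
    have hMm : M e z = √(M e z) ^ 2 := (Real.sq_sqrt (M_pos he z).le).symm
    have him : z.im ≠ 0 := by
      intro h
      have h2 : √(M e z) ^ 2 ≤ R z ^ 2 := by gcongr
      rw [← hMm] at h2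
      unfold M R at h2
      rw [h] at h2
      nlinarith [sq_nonneg z.re]
    have hd := (psi_diff he hT hR).hasFDerivAt
    have hg := psi_grad he hT hz
    have hg' : ‖fderiv ℝ (psi e T) z‖ ≤ 1 * exp (U e T z) := by rwa [one_mul]
    have hg'' : ‖-fderiv ℝ (psi e T) z‖ ≤ 1 * exp (U e T z) := by rwa [norm_neg, one_mul]
    have s1 := slope_of_fderiv hd hg' ε hε
    have s2 := slope_of_fderiv hd.neg hg'' ε hε
    have hsign : ∀ᶠ w in 𝓝 z, (0 ≤ w.im ↔ 0 ≤ z.im) := by
      rcases lt_or_gt_of_ne him with h | h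
      · have : ∀ᶠ w : ℂ in 𝓝 z, w.im < 0 :=
          Complex.continuous_im.continuousAt.eventually_lt continuousAt_const h
        filter_upwards [this] with w hw
        exact ⟨fun h' => absurd h' (not_le.2 hw), fun h' => absurd h' (not_le.2 h)⟩
      · have : ∀ᶠ w : ℂ in 𝓝 z, 0 < w.im :=
          continuousAt_const.eventually_lt Complex.continuous_im.continuousAt h
        filter_upwards [this] with w hw
        exact ⟨fun _ => h.le, fun _ => hw.le⟩
    filter_upwards [s1, s2, hsign] with w h1 h2 h3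
    simp only [one_mul, Pi.neg_apply] at h1 h2
    have h4 : |psi e T w - psi e T z| ≤ (exp (U e T z) + ε) * ‖w - z‖ := by
      rw [abs_le]
      constructor <;> linarith
    have h5 : |max (psi e T w - B T) 0 - max (psi e T z - B T) 0|
        ≤ |psi e T w - psi e T z| := by
      have := abs_max_sub_max_le_abs (psi e T w - B T) (psi e T z - B T) 0
      simpa using this
    unfold Theta
    by_cases hz0 : 0 ≤ z.im
    · rw [if_pos hz0, if_pos (h3.2 hz0)]
      exact h5.trans h4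
    · rw [if_neg hz0, if_neg (fun h => hz0 (h3.1 h))]
      have : -max (psi e T w - B T) 0 - -max (psi e T z - B T) 0
          = -(max (psi e T w - B T) 0 - max (psi e T z - B T) 0) := by ring
      rw [this, abs_neg]
      exact h5.trans h4

theorem Theta_cont {e T : ℝ} (he : 0 < e) (hT : 0 < T) : Continuous (Theta e T) := by
  refine continuous_iff_continuousAt.2 fun z => ?_
  have h := Theta_slope he hT z 1 one_pos
  rw [ContinuousAt, tendsto_iff_dist_tendsto_zero]
  have h2 : Tendsto (fun w : ℂ => (exp (U e T z) + 1) * ‖w - z‖) (𝓝 z) (𝓝 0) := by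
    have : Continuous (fun w : ℂ => (exp (U e T z) + 1) * ‖w - z‖) := by fun_prop
    have h3 := this.tendsto z
    simpa using h3
  refine squeeze_zero' (Filter.Eventually.of_forall fun w => dist_nonneg) ?_ h2
  filter_upwards [h] with w hw
  rwa [Real.dist_eq]

theorem dist_ge {e T : ℝ} (he : 0 < e) (hT : 0 < T) :
    ENNReal.ofReal (4 * arctan (1 / (T * √e)) - 4 * arctan (1 / T))
      ≤ confDist (U e T) (-Complex.I) Complex.I := by
  have h := dist_bound (U_contDiff he hT).continuous (Theta_cont he hT) one_pos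
    (fun z ε hε => by
      filter_upwards [Theta_slope he hT z ε hε] with w hw
      rw [one_mul]
      exact (le_abs_self _).trans hw) (-Complex.I) Complex.I
  refine le_trans (ENNReal.ofReal_le_ofReal ?_) h
  rw [div_one]
  have hM1 : √(M e Complex.I) = e := by
    unfold M
    simp [Real.sqrt_sq he.le]
  have hM2 : √(M e (-Complex.I)) = e := by
    unfold M
    simp [Real.sqrt_sq he.le]
  have hW : √(1 / (T ^ 2 * e)) = 1 / (T * √e) := by
    rw [Real.sqrt_div (by norm_num), Real.sqrt_one, Real.sqrt_mul (by positivity),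
      Real.sqrt_sq hT.le]
  have hp1 : psi e T Complex.I = 2 * arctan (1 / (T * √e)) := by
    unfold psi W
    have hR1 : R Complex.I = 1 := by simp [R]
    rw [hM1, hR1, hW]
  have hp2 : psi e T (-Complex.I) = 2 * arctan (1 / (T * √e)) := by
    unfold psi W
    have hR1 : R (-Complex.I) = 1 := by simp [R]
    rw [hM2, hR1, hW]
  unfold Theta
  rw [hp1, hp2]
  simp only [Complex.I_im, Complex.neg_im]
  rw [if_pos (by norm_num), if_neg (by norm_num)]
  have := le_max_left (2 * arctan (1 / (T * √e)) - B T) 0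
  unfold B at *
  linarith

theorem arctan_le {y : ℝ} (hy : 0 ≤ y) : arctan y ≤ y := by
  have hd : ∀ x : ℝ, HasDerivAt (fun x : ℝ => x - arctan x) (1 - 1 / (1 + x ^ 2)) x := fun x =>
    (hasDerivAt_id x).sub (Real.hasDerivAt_arctan x)
  have hm : Monotone (fun x : ℝ => x - arctan x) := by
    refine monotone_of_deriv_nonneg (fun x => (hd x).differentiableAt) fun x => ?_
    rw [(hd x).deriv, sub_nonneg, div_le_one (by positivity)]
    nlinarith [sq_nonneg x]
  have := hm hy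
  simp only [arctan_zero, sub_zero] at this
  linarith

/-- For every `c < 2 π` there is a smooth `u` on the plane with `Δ u + exp (2 u) ≤ 0`, finite area
and diameter larger than `c`. -/
theorem result : ∀ c < 2 * π, ∃ u : ℂ → ℝ, ContDiff ℝ (⊤ : ℕ∞) u ∧
    (∀ z, Δ u z + exp (2 * u z) ≤ 0) ∧ Integrable (fun z => exp (2 * u z)) ∧
    ENNReal.ofReal c < confDiam u := by
  intro c hc
  wlog hc0 : 0 < c with H
  · obtain ⟨u, h1, h2, h3, h4⟩ := H 1 (by linarith [Real.pi_gt_three]) one_pos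
    refine ⟨u, h1, h2, h3, lt_of_le_of_lt (ENNReal.ofReal_le_ofReal ?_) h4⟩
    linarith
  set δ := 2 * π - c with hδ
  have hδ0 : 0 < δ := by linarith
  set T := 16 / δ with hT
  have hT0 : 0 < T := by positivity
  set e := (δ / (16 * T)) ^ 2 with he
  have he0 : 0 < e := by positivity
  refine ⟨U e T, U_contDiff he0 hT0, U_super he0 hT0, area_int he0 hT0, ?_⟩
  have h1 := dist_ge he0 hT0
  have h2 : confDist (U e T) (-Complex.I) Complex.I ≤ confDiam (U e T) :=
    le_iSup_of_le _ (le_iSup_of_le _ (le_refl _))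
  refine lt_of_lt_of_le ?_ (h1.trans h2)
  rw [ENNReal.ofReal_lt_ofReal_iff_of_nonneg hc0.le]
  have hse : √e = δ / (16 * T) := by
    rw [he, Real.sqrt_sq (by positivity)]
  have h3 : arctan (1 / (T * √e)) = π / 2 - arctan (T * √e) := by
    rw [one_div, Real.arctan_inv_of_pos (by positivity)]
  have h4 : arctan (T * √e) ≤ δ / 16 := by
    refine (arctan_le (by positivity)).trans (le_of_eq ?_)
    rw [hse]
    field_simp
  have h5 : arctan (1 / T) ≤ δ / 16 := by
    refine (arctan_le (by positivity)).trans (le_of_eq ?_)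
    rw [hT]
    field_simp
  rw [h3]
  linarith

end Pool.Agent.Results.MP_0fb7ac_an.DiameterTwoPi
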